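import Pool.Agent.Helper70.ML.St

/-!
# Project ML: module GEN (generators of the alternating group)
-/

set_option autoImplicit false

namespace Pool.Agent.Helper4.ML

open Pool.Agent.Helper70.ML Pool.Agent.Helper75.MX
open Equiv Equiv.Perm

theorem hGEN : StGEN := by
  intro n K hK
  have h01 : (0 : Fin (n + 2)) ≠ 1 := by
    intro h
    have := congrArg Fin.val h
    simp at this
  obtain ⟨s, hs⟩ : ∃ s : Perm (Fin (n + 2)), s = swap 0 1 := ⟨_, rfl⟩
  have hss : s * s = 1 := by rw [hs]; exact Equiv.swap_mul_self _ _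
  have hsinv : s⁻¹ = s := by rw [hs]; exact Equiv.swap_inv _ _
  have hsgn : sign s = -1 := by rw [hs]; exact sign_swap h01
  obtain ⟨H, hH⟩ : ∃ H : Subgroup (Perm (Fin (n + 2))), H = K.map (alternatingGroup (Fin (n + 2))).subtype :=
    ⟨_, rfl⟩
  have hi0 : ∀ i : Fin n, (0 : Fin (n + 2)) ≠ i.succ.succ := fun i => (Fin.succ_ne_zero _).symm
  have hi1 : ∀ i : Fin n, (1 : Fin (n + 2)) ≠ i.succ.succ := by
    intro i h
    have := congrArg Fin.val h
    simp at this
  have hx : ∀ i : Fin n, s * swap 1 i.succ.succ ∈ H := by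
    intro i
    have hal : s * swap 1 i.succ.succ ∈ alternatingGroup (Fin (n + 2)) := by
      rw [mem_alternatingGroup, map_mul, hsgn, sign_swap (hi1 i)]
      simp
    rw [hH]
    exact ⟨⟨_, hal⟩, hK _ ⟨i, by change s * swap 1 i.succ.succ = _; rw [hs]⟩, rfl⟩
  have hx' : ∀ i : Fin n, swap 1 i.succ.succ * s ∈ H := by
    intro i
    have h := H.inv_mem (hx i)
    rwa [mul_inv_rev, hsinv, Equiv.swap_inv] at h
  have h0 : ∀ i : Fin n, swap 0 i.succ.succ = s * swap 1 i.succ.succ * s := by
    intro i
    have h := Equiv.mul_swap_eq_swap_mul s 1 i.succ.succ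
    have e1 : s 1 = 0 := by rw [hs]; exact Equiv.swap_apply_right _ _
    have e2 : s i.succ.succ = i.succ.succ := by
      rw [hs]; exact Equiv.swap_apply_of_ne_of_ne (hi0 i).symm (hi1 i).symm
    rw [e1, e2] at h
    rw [h, mul_assoc, hss, mul_one]
  have hcase : ∀ x : Fin (n + 2), x = 0 ∨ x = 1 ∨ ∃ i : Fin n, x = i.succ.succ := by
    intro x
    rcases Fin.eq_zero_or_eq_succ x with h | ⟨j, h⟩
    · exact Or.inl h
    · rcases Fin.eq_zero_or_eq_succ j with h' | ⟨k, h'⟩
      · right; left; rw [h, h']; rfl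
      · right; right; exact ⟨k, by rw [h, h']⟩
  have hpair : ∀ x y : Fin (n + 2), x ≠ y → s * swap x y ∈ H := by
    intro x y hxy
    have key0 : ∀ i : Fin n, s * swap 0 i.succ.succ ∈ H := by
      intro i
      rw [h0, ← mul_assoc, ← mul_assoc, hss, one_mul]
      exact hx' i
    have key01 : s * swap 0 1 ∈ H := by
      rw [← hs, hss]; exact H.one_mem
    rcases hcase x with rfl | rfl | ⟨i, rfl⟩ <;> rcases hcase y with rfl | rfl | ⟨j, rfl⟩
    · exact absurd rfl hxy
    · exact key01
    · exact key0 j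
    · rw [Equiv.swap_comm]; exact key01
    · exact absurd rfl hxy
    · exact hx j
    · rw [Equiv.swap_comm]; exact key0 i
    · rw [Equiv.swap_comm]; exact hx i
    · have h := Equiv.mul_swap_eq_swap_mul (swap 1 i.succ.succ) 1 j.succ.succ
      rw [Equiv.swap_apply_left, Equiv.swap_apply_of_ne_of_ne (hi1 j).symm hxy.symm] at h
      have h2 : swap i.succ.succ j.succ.succ =
          swap 1 i.succ.succ * swap 1 j.succ.succ * swap 1 i.succ.succ := by
        rw [h, mul_assoc, Equiv.swap_mul_self, mul_one]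
      rw [h2]
      have h3 : s * (swap 1 i.succ.succ * swap 1 j.succ.succ * swap 1 i.succ.succ) =
          (s * swap 1 i.succ.succ) * (swap 1 j.succ.succ * s) * (s * swap 1 i.succ.succ) := by
        calc s * (swap 1 i.succ.succ * swap 1 j.succ.succ * swap 1 i.succ.succ) =
            s * swap 1 i.succ.succ * swap 1 j.succ.succ * 1 * swap 1 i.succ.succ := by
              rw [mul_one]; simp only [mul_assoc]
          _ = s * swap 1 i.succ.succ * swap 1 j.succ.succ * (s * s) * swap 1 i.succ.succ := by rw [hss]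
          _ = _ := by simp only [mul_assoc]
      rw [h3]
      exact H.mul_mem (H.mul_mem (hx i) (hx' j)) (hx i)
  have hpair' : ∀ x y : Fin (n + 2), x ≠ y → swap x y * s ∈ H := by
    intro x y hxy
    have h := H.inv_mem (hpair x y hxy)
    rwa [mul_inv_rev, hsinv, Equiv.swap_inv] at h
  have main : ∀ f : Perm (Fin (n + 2)), (sign f = 1 → f ∈ H) ∧ (sign f = -1 → s * f ∈ H) := by
    intro f
    refine Equiv.Perm.swap_induction_on (motive := fun f => (sign f = 1 → f ∈ H) ∧ (sign f = -1 → s * f ∈ H)) f ?_ ?_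
    · refine ⟨fun _ => H.one_mem, fun h => ?_⟩
      rw [map_one] at h
      exact absurd h (by decide)
    · rintro f x y hxy ⟨h1, h2⟩
      have hsg : sign (swap x y * f) = - sign f := by
        rw [map_mul, sign_swap hxy]
        simp
      refine ⟨fun h => ?_, fun h => ?_⟩
      · rw [hsg] at h
        have h3 : sign f = -1 := by
          rw [← h, neg_neg]
        have h4 := H.mul_mem (hpair' x y hxy) (h2 h3)
        have e : swap x y * s * (s * f) = swap x y * f := by
          calc swap x y * s * (s * f) = swap x y * (s * s) * f := by simp only [mul_assoc]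
            _ = _ := by rw [hss, mul_one]
        rwa [e] at h4
      · rw [hsg] at h
        have h3 : sign f = 1 := neg_injective h
        have h4 := H.mul_mem (hpair x y hxy) (h1 h3)
        rwa [mul_assoc] at h4
  rw [Subgroup.eq_top_iff']
  rintro ⟨f, hf⟩
  have h := (main f).1 (mem_alternatingGroup.1 hf)
  rw [hH] at h
  obtain ⟨g, hg, hgf⟩ := h
  have e : g = ⟨f, hf⟩ := Subtype.ext hgf
  rw [← e]
  exact hg

end Pool.Agent.Helper4.ML
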